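import Pool.Agent.Helper9K.Main

set_option autoImplicit false

open Topology

namespace Pool.Agent.Results.MP_a60711_al.BoundedCountableSets

/-- **Topological fields with bounded countable subsets.** Let `F` be a Hausdorff topological field
in which every countable subset `S` is bounded, that is, for every neighbourhood `U` of `0` there is a
neighbourhood `V` of `0` with `S * V ⊆ U`.  Then `F` embeds, as a topological field, into a connected
Hausdorff topological field. -/
theorem result (F : Type) [Field F] [TopologicalSpace F] [IsTopologicalDivisionRing F] [T2Space F]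
    (hF : ∀ S : Set F, S.Countable → ∀ U ∈ 𝓝 (0 : F), ∃ V ∈ 𝓝 (0 : F),
      ∀ s ∈ S, ∀ v ∈ V, s * v ∈ U) :
    ∃ (K : Type) (_ : Field K) (_ : TopologicalSpace K),
      IsTopologicalDivisionRing K ∧ T2Space K ∧ ConnectedSpace K ∧
        ∃ g : F →+* K, Topology.IsEmbedding g :=
  Pool.Agent.Helper9K.main F fun U hU S hS => hF S hS U hU

end Pool.Agent.Results.MP_a60711_al.BoundedCountableSets
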