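import Pool.Agent.Helper9KC.Fin

/-!
# Topological fields which embed in path-connected topological fields
-/

set_option autoImplicit false

open Topology Filter

namespace Pool.Agent.Results.MP_a60711_al.PathConnectedExtensions

/-- `M` is countable; or it is first countable and every family of functions `ℕ → ℕ` indexed by `M`
is eventually dominated by one function; or it is completely metrizable; or some continuous map from
a Polish space to `M` has uncountable range. -/
def Admissible (M : Type) [TopologicalSpace M] : Prop :=
  Countable M ∨
    (FirstCountableTopology M ∧ ∀ f : M → ℕ → ℕ, ∃ g : ℕ → ℕ, ∀ a, ∀ᶠ n in atTop, f a n ≤ g n) ∨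
    TopologicalSpace.IsCompletelyMetrizableSpace M ∨
    ∃ (P : Type) (_ : TopologicalSpace P) (_ : PolishSpace P) (g : P → M),
      Continuous g ∧ ¬ (Set.range g).Countable

/-- **Embeddings in path-connected topological fields.** A Hausdorff topological field `F` embeds, as
a topological field, into a path-connected Hausdorff topological field if and only if its topology is
the join of the topologies induced by some homomorphisms to admissible Hausdorff topological
fields. -/
theorem result (F : Type) [Field F] [tF : TopologicalSpace F] [IsTopologicalDivisionRing F]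
    [T2Space F] :
    (∃ (K : Type) (_ : Field K) (_ : TopologicalSpace K),
      IsTopologicalDivisionRing K ∧ T2Space K ∧ PathConnectedSpace K ∧
        ∃ g : F →+* K, Topology.IsEmbedding g) ↔
    ∃ (J : Type) (M : J → Type) (_ : ∀ j, Field (M j)) (_ : ∀ j, TopologicalSpace (M j))
      (_ : ∀ j, IsTopologicalDivisionRing (M j)) (_ : ∀ j, T2Space (M j)) (f : ∀ j, F →+* M j),
      (∀ j, Admissible (M j)) ∧ tF = ⨅ j, TopologicalSpace.induced (f j) inferInstance := by
  constructor
  · rintro ⟨K, iK, tK, h1, h2, h3, g, hg⟩
    refine ⟨Unit, fun _ => K, fun _ => iK, fun _ => tK, fun _ => h1, fun _ => h2, fun _ => g,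
      fun _ => Pool.Agent.Helper9KC.unc K, ?_⟩
    rw [iInf_const]
    exact hg.eq_induced
  · rintro ⟨J, M, i1, i2, i3, i4, f, hM, hF⟩
    exact Pool.Agent.Helper9KC.main F J M hM f hF

end Pool.Agent.Results.MP_a60711_al.PathConnectedExtensions
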